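import Pool.Agent.Work.MP_db9399_sl_helper49.LTS

/-!
# FIN: the total colouring (helper49)
-/

set_option autoImplicit false

namespace Pool.Agent.Work.MP_db9399_sl_helper49

open Finset Classical
open Pool.Agent.Work.MP_db9399_all (nb)
open Pool.Agent.Work.MP_db9399_dn (IsMat Tot)
open Pool.Agent.Work.MP_db9399_bg (HPre)
open Pool.Agent.Work.MP_db9399_sl

universe u

section
variable {V : Type u} {Ys : Finset (Finset V)}

theorem same_mem (hdis : ∀ Y ∈ Ys, ∀ Y' ∈ Ys, Y ≠ Y' → Disjoint Y Y') {Y : Finset V} (hY : Y ∈ Ys)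
    {v w : V} (hv : v ∈ Y) (h : Same Ys v w) : w ∈ Y := by
  obtain ⟨Y', hY', hv', hw'⟩ := h
  by_cases he : Y = Y'
  · rw [he]; exact hw'
  · exact absurd hv' (Finset.disjoint_left.1 (hdis Y hY Y' hY' he) hv)

end

theorem numb (d : ℕ) (hd : 10 ^ 30 ≤ d) :
    ∃ x h : ℕ, 1 ≤ x ∧ 10 ^ 27 * x ≤ d ∧ 10 ^ 12 * h ≤ d ∧ d ≤ 10 ^ 13 * h ∧ 200 * x ≤ h ∧
      2 * (1 / 10 ^ 29 * (d : ℝ)) + 3 ≤ (x : ℝ) ∧ (d : ℝ) / (2 * 10 ^ 12) - 1 ≤ (h : ℝ) := by
  have h1 : d < 10 ^ 28 * (d / 10 ^ 28 + 1) := Nat.lt_mul_div_succ d (by norm_num)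
  have h2 : 10 ^ 28 * (d / 10 ^ 28) ≤ d := Nat.mul_div_le d _
  have h3 : d < (2 * 10 ^ 12) * (d / (2 * 10 ^ 12) + 1) := Nat.lt_mul_div_succ d (by norm_num)
  have h4 : (2 * 10 ^ 12) * (d / (2 * 10 ^ 12)) ≤ d := Nat.mul_div_le d _
  generalize d / 10 ^ 28 = x at h1 h2
  generalize d / (2 * 10 ^ 12) = h at h3 h4
  refine ⟨x, h, by omega, by omega, by omega, by omega, by omega, ?_, ?_⟩
  · have h5 : (d : ℝ) < 10 ^ 28 * ((x : ℝ) + 1) := by exact_mod_cast h1
    norm_num at h5 ⊢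
    have h6 : (1000000000000000000000000000000 : ℝ) ≤ d := by
      have : (10 : ℝ) ^ 30 ≤ d := by exact_mod_cast hd
      linarith
    linarith
  · have h5 : (d : ℝ) < (2 * 10 ^ 12) * ((h : ℝ) + 1) := by exact_mod_cast h3
    rw [sub_le_iff_le_add, div_le_iff₀ (by norm_num)]
    linarith

theorem FIN : Stmt_FIN.{u} := by
  refine ⟨1 / 10 ^ 29, 1 / 3 - 1 / 10 ^ 13, 1 / 10 ^ 29, 10 ^ 30, by norm_num, by norm_num,
    by norm_num, by norm_num, ?_⟩
  intro V _ G d k Ys UH c0 EH tu c c' t E F K0 C p a Z Z' hd hdeg hdis hcard hdegY hnon hH hOut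
    hcc hZZ hV
  obtain ⟨x, h, hx1, hx2, hh1, hh2, hxh, hxR, hhR⟩ := numb d hd
  have hdR : (1000000000000000000000000000000 : ℝ) ≤ d := by
    have : (10 : ℝ) ^ 30 ≤ d := by exact_mod_cast hd
    linarith
  have hEH : ∀ v w w', EH.Adj v w → EH.Adj v w' → w = w' := by
    intro v w w' hw hw'
    exact Finset.card_le_one.1 (hH.mat v) w ((mem_nb EH v w).2 hw) w' ((mem_nb EH v w').2 hw')
  -- the inner graph
  have hin : ∀ Y ∈ Ys, ∀ v ∈ Y, ∀ w, (Gin G EH Ys).Adj v w ↔ w ∈ Y ∧ G.Adj v w ∧ ¬ EH.Adj v w := by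
    intro Y hY v hv w
    constructor
    · rintro ⟨h1, h2, h3⟩
      exact ⟨same_mem hdis hY hv h2, h1, h3⟩
    · rintro ⟨h1, h2, h3⟩
      exact ⟨h2, ⟨Y, hY, hv, h1⟩, h3⟩
  have key : ∀ Y ∈ Ys, ∃ T : V → V → Fin k, (∀ v w, T v w = T w v) ∧
      (∀ v ∈ Y, ∀ w ∈ Y, (Gin G EH Ys).Adj v w → T v w ∈ K0 ∧ T v w ∉ F v) ∧
      ∀ v ∈ Y, Set.InjOn (T v) (nb (Gin G EH Ys) v : Set V) := by
    intro Y hY
    have hYc := hcard Y hY
    have hInS : ∀ v ∈ Y, InS Ys v := fun v hv => ⟨Y, hY, hv⟩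
    -- the size of the cells
    obtain ⟨s, hs1, hs2⟩ : ∃ s : ℕ, (Y.card : ℝ) / 6 + 1 / 10 ^ 29 * d ≤ s ∧
        (s : ℝ) ≤ (Y.card : ℝ) / 6 + 1 / 10 ^ 29 * d + 1 :=
      ⟨⌈(Y.card : ℝ) / 6 + 1 / 10 ^ 29 * d⌉₊, Nat.le_ceil _,
        (Nat.ceil_lt_add_one (by positivity)).le⟩
    have hsh : h ≤ 2 * s := by
      have h1 : (10 : ℝ) ^ 12 * h ≤ d := by exact_mod_cast hh1
      have h2 : (h : ℝ) ≤ 2 * s := by
        have h3 := hYc.1
        norm_num at h1 h3 hs1 ⊢
        linarith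
      exact_mod_cast h2
    have hC' : ∀ i : Fin 3, ∃ C' : Finset (Fin k), C' ⊆ C i ∧ C'.card = 2 * s - h := by
      intro i
      refine Finset.exists_subset_card_eq ?_
      have h1 := hOut.Cc i
      have h2 := hYc.2
      have h3 : ((2 * s - h : ℕ) : ℝ) ≤ (C i).card := by
        rw [Nat.cast_sub hsh]
        push_cast
        refine le_trans ?_ h1
        norm_num at hhR h2 hs2 ⊢
        linarith
      exact_mod_cast h3
    choose C' hC'1 hC'2 using hC'
    have hdegs : ∀ v ∈ Y, ((nb G v ∩ Y).card : ℝ) ≤ (nb (Gin G EH Ys) v).card + 1 := by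
      intro v hv
      have h1 : nb G v ∩ Y ⊆ nb (Gin G EH Ys) v ∪ nb EH v := by
        intro w hw
        rw [mem_inter, mem_nb] at hw
        rw [mem_union, mem_nb, mem_nb, hin Y hY v hv w]
        by_cases he : EH.Adj v w
        · exact Or.inr he
        · exact Or.inl ⟨hw.2, hw.1, he⟩
      have h2 := le_trans (Finset.card_le_card h1) (Finset.card_union_le _ _)
      have h3 := hH.mat v
      have h4 : (nb G v ∩ Y).card ≤ (nb (Gin G EH Ys) v).card + 1 := by omega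
      exact_mod_cast h4
    refine LTS (Gin G EH Ys) d x h s Y K0 F p a C' Z' hOut.K0c hx1 hx2 hh1 hh2 hxh ?_ ?_ ?_ ?_ ?_
      ?_ ?_ (hV.par Y hY) ?_ (fun j => (hC'1 j).trans (hOut.CK j)) ?_ ?_ ?_
    · have h1 := hV.ZY Y hY
      have h2 : ((Y ∩ Z').card : ℝ) ≤ x := by linarith
      exact_mod_cast h2
    · intro v hv w hw
      rw [mem_nb, hin Y hY v hv w] at hw
      exact hw.1
    · intro v hv
      rw [add_comm]
      exact hV.Fd v (hInS v hv)
    · intro v hv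
      have h1 : Y \ nb (Gin G EH Ys) v ⊆ (Y \ nb G v) ∪ nb EH v := by
        intro w hw
        rw [mem_sdiff, mem_nb, hin Y hY v hv w] at hw
        rw [mem_union, mem_sdiff, mem_nb, mem_nb]
        by_cases he : EH.Adj v w
        · exact Or.inr he
        · exact Or.inl ⟨hw.1, fun h' => hw.2 ⟨hw.1, h', he⟩⟩
      have h2 := le_trans (Finset.card_le_card h1) (Finset.card_union_le _ _)
      have h3 := hH.mat v
      have h4 := hnon Y hY v hv
      have h5 : ((Y \ nb (Gin G EH Ys) v).card : ℝ) ≤ (Y \ nb G v).card + 1 := by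
        have : (Y \ nb (Gin G EH Ys) v).card ≤ (Y \ nb G v).card + 1 := by omega
        exact_mod_cast this
      have h6 : ((Y \ nb (Gin G EH Ys) v).card : ℝ) ≤ x := by linarith
      exact_mod_cast h6
    · intro v hv
      have h1 := hV.Fd v (hInS v hv)
      have h2 := hdegs v hv
      have h3 := hdegY Y hY v hv
      have h4 : ((F v).card : ℝ) + (nb (Gin G EH Ys) v).card = d + 1 := by exact_mod_cast h1
      have h5 : ((F v).card : ℝ) ≤ x := by
        have : (1 - 1 / 10 ^ 29) * (d : ℝ) = d - 1 / 10 ^ 29 * d := by ring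
        rw [this] at h3
        linarith
      exact_mod_cast h5
    · intro v hv
      exact hV.FK v (hInS v hv)
    · intro b
      have h1 := hV.ld Y hY b
      have h2 : ((Y.filter (fun v => v ∉ Z' ∧ b ∈ F v)).card : ℝ) ≤ x := by linarith
      exact_mod_cast h2
    · intro i l
      have h1 := abs_le.1 (hOut.cell Y hY i l)
      constructor
      · have h2 : ((Y.filter (fun v => p v = i ∧ a v = l)).card : ℝ) ≤ s := by linarith
        exact_mod_cast h2
      · have h2 : (s : ℝ) ≤ (Y.filter (fun v => p v = i ∧ a v = l)).card + x := by linarith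
        exact_mod_cast h2
    · intro i j hij
      exact Finset.disjoint_of_subset_left (hC'1 i)
        (Finset.disjoint_of_subset_right (hC'1 j) (hOut.Cd i j hij))
    · intro i
      rw [hC'2]
      omega
    · intro v hv hvZ
      exact Finset.disjoint_of_subset_right (hC'1 _) (hV.av v (hInS v hv) hvZ)
  have : Nonempty (Fin k) := by
    have h1 : K0.Nonempty := Finset.card_pos.1 (by rw [hOut.K0c]; omega)
    exact ⟨h1.choose⟩
  choose! T hT1 hT2 hT3 using key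
  -- the spot of a vertex
  obtain ⟨yo, hyo⟩ : ∃ yo : V → Finset V, ∀ Y ∈ Ys, ∀ v ∈ Y, yo v = Y := by
    refine ⟨fun v => if h : InS Ys v then h.choose else ∅, fun Y hY v hv => ?_⟩
    have h1 : InS Ys v := ⟨Y, hY, hv⟩
    simp only [h1, dite_true]
    by_contra hne
    exact Finset.disjoint_left.1 (hdis _ h1.choose_spec.1 Y hY hne) h1.choose_spec.2 hv
  obtain ⟨t', hte, hti, hto⟩ : ∃ t' : V → V → Fin k, (∀ v w, EH.Adj v w → t' v w = tu v) ∧
      (∀ v w, ¬ EH.Adj v w → Same Ys v w → t' v w = T (yo v) v w) ∧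
      (∀ v w, ¬ EH.Adj v w → ¬ Same Ys v w → t' v w = t v w) := by
    refine ⟨fun v w => if EH.Adj v w then tu v else if Same Ys v w then T (yo v) v w else t v w,
      ?_, ?_, ?_⟩
    · intro v w h
      simp only [h, if_true]
    · intro v w h1 h2
      simp only [h1, h2, if_true, if_false]
    · intro v w h1 h2
      simp only [h1, h2, if_false]
  have hsame : ∀ v w, Same Ys v w → ∃ Y ∈ Ys, v ∈ Y ∧ w ∈ Y ∧ yo v = Y ∧ yo w = Y := by
    rintro v w ⟨Y, hY, hv, hw⟩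
    exact ⟨Y, hY, hv, hw, hyo Y hY v hv, hyo Y hY w hw⟩
  have hsymS : ∀ v w, Same Ys v w → Same Ys w v := fun v w ⟨Y, hY, hv, hw⟩ => ⟨Y, hY, hw, hv⟩
  -- colours of inner edges
  have hinn : ∀ v w, G.Adj v w → ¬ EH.Adj v w → Same Ys v w →
      InS Ys v ∧ t' v w ∈ K0 ∧ t' v w ∉ F v := by
    intro v w hvw hE hS
    rw [hti v w hE hS]
    obtain ⟨Y, hY, hv, hw, hy, -⟩ := hsame v w hS
    rw [hy]
    exact ⟨⟨Y, hY, hv⟩, hT2 Y hY v hv w hw ⟨hvw, hS, hE⟩⟩
  -- colours of the other edges at spot vertices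
  have hout : ∀ v w, G.Adj v w → EH.Adj v w ∨ ¬ Same Ys v w → t' v w = t v w ∧
      ((Gex G Ys).Adj v w ∨ EH.Adj v w) := by
    intro v w hvw h
    by_cases hE : EH.Adj v w
    · exact ⟨by rw [hte v w hE, hOut.te v w hE], Or.inr hE⟩
    · have hS : ¬ Same Ys v w := h.resolve_left hE
      exact ⟨hto v w hE hS, Or.inl ⟨hvw, hS⟩⟩
  have hmix : ∀ v w w', G.Adj v w → G.Adj v w' → ¬ EH.Adj v w → Same Ys v w →
      EH.Adj v w' ∨ ¬ Same Ys v w' → t' v w ≠ t' v w' := by
    intro v w w' hw hw' hE hS h' he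
    obtain ⟨h1, h2, h3⟩ := hinn v w hw hE hS
    obtain ⟨h4, h5⟩ := hout v w' hw' h'
    have h6 := hOut.Et v w' h1 h5
    rw [he, h4] at h2 h3
    exact h3 (hV.EF v h1 (mem_inter.2 ⟨h6, h2⟩))
  refine ⟨t', ⟨hV.cc, ?_, ?_, ?_⟩, hV.cU, hte⟩
  · -- symmetry
    intro v w
    by_cases hE : EH.Adj v w
    · rw [hte v w hE, hte w v hE.symm, hH.tt v w hE]
    · have hE' : ¬ EH.Adj w v := fun h' => hE h'.symm
      by_cases hS : Same Ys v w
      · rw [hti v w hE hS, hti w v hE' (hsymS v w hS)]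
        obtain ⟨Y, hY, -, -, h1, h2⟩ := hsame v w hS
        rw [h1, h2, hT1 Y hY]
      · rw [hto v w hE hS, hto w v hE' (fun h' => hS (hsymS w v h')), hOut.ts]
  · -- injectivity
    intro v w hw w' hw' he
    rw [Finset.mem_coe, mem_nb] at hw hw'
    by_cases h1 : ¬ EH.Adj v w ∧ Same Ys v w
    · by_cases h2 : ¬ EH.Adj v w' ∧ Same Ys v w'
      · obtain ⟨Y, hY, hv, hwY, hy, -⟩ := hsame v w h1.2
        rw [hti v w h1.1 h1.2, hti v w' h2.1 h2.2, hy] at he
        refine hT3 Y hY v hv ?_ ?_ he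
        · rw [Finset.mem_coe, mem_nb]
          exact ⟨hw, h1.2, h1.1⟩
        · rw [Finset.mem_coe, mem_nb]
          exact ⟨hw', h2.2, h2.1⟩
      · exact absurd he (hmix v w w' hw hw' h1.1 h1.2
          (by by_cases hE : EH.Adj v w'
              · exact Or.inl hE
              · exact Or.inr fun hS => h2 ⟨hE, hS⟩))
    · have h1' : EH.Adj v w ∨ ¬ Same Ys v w := by
        by_cases hE : EH.Adj v w
        · exact Or.inl hE
        · exact Or.inr fun hS => h1 ⟨hE, hS⟩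
      by_cases h2 : ¬ EH.Adj v w' ∧ Same Ys v w'
      · exact absurd he.symm (hmix v w' w hw' hw h2.1 h2.2 h1')
      · have h2' : EH.Adj v w' ∨ ¬ Same Ys v w' := by
          by_cases hE : EH.Adj v w'
          · exact Or.inl hE
          · exact Or.inr fun hS => h2 ⟨hE, hS⟩
        obtain ⟨h3, h4⟩ := hout v w hw h1'
        obtain ⟨h5, h6⟩ := hout v w' hw' h2'
        rw [h3, h5] at he
        exact hOut.ti v h4 h6 he
  · -- vertex colours
    intro v w hvw
    by_cases hE : EH.Adj v w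
    · rw [hte v w hE, hV.cU v (hH.EU v w hE)]
      exact hH.ct v (hH.EU v w hE)
    · by_cases hS : Same Ys v w
      · obtain ⟨h1, h2, h3⟩ := hinn v w hvw hE hS
        intro he
        rw [he] at h2 h3
        exact h3 (hV.cF v h1 h2)
      · rw [hto v w hE hS]
        by_cases hI : InS Ys v
        · intro he
          have h1 := hOut.Et v w hI (Or.inl ⟨hvw, hS⟩)
          rw [he] at h1
          exact hV.cE v hI h1
        · rw [hcc v hI]
          exact hOut.tc v w ⟨hvw, hS⟩ (fun h' => absurd h' hI)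

end Pool.Agent.Work.MP_db9399_sl_helper49
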