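import Pool.Agent.Work.MP_db9399_sl.Interface
import Pool.Agent.Work.MP_db9399_ot_helper94.LTZFinal

/-!
# LTS: the inner edges of one spot, in the ambient graph (helper49)
-/

set_option autoImplicit false

namespace Pool.Agent.Work.MP_db9399_sl_helper49

open Finset Classical
open Pool.Agent.Work.MP_db9399_all (nb)
open Pool.Agent.Work.MP_db9399_sl
open Pool.Agent.Work.MP_db9399_ot (LTZH Stmt_LTZ)

universe u

/-- relabelling of the colours -/
theorem relabel {k n : ℕ} (K0 : Finset (Fin k)) (h : K0.card = n) (hn : 0 < n) :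
    ∃ (φ : Fin k → ℕ) (ψ : ℕ → Fin k), (∀ b ∈ K0, φ b < n) ∧ (∀ b ∈ K0, ψ (φ b) = b) ∧
      (∀ j, j < n → ψ j ∈ K0) ∧ ∀ j, j < n → φ (ψ j) = j := by
  let e : K0 ≃ Fin n := Finset.equivFinOfCardEq h
  refine ⟨fun b => if hb : b ∈ K0 then (e ⟨b, hb⟩ : ℕ) else 0,
    fun j => if hj : j < n then (e.symm ⟨j, hj⟩ : Fin k) else (e.symm ⟨0, hn⟩ : Fin k),
    ?_, ?_, ?_, ?_⟩
  · intro b hb
    simp only [hb, dite_true]
    exact (e ⟨b, hb⟩).2
  · intro b hb
    simp only [hb, dite_true, (e ⟨b, hb⟩).2]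
    simp
  · intro j hj
    simp only [hj, dite_true]
    exact (e.symm ⟨j, hj⟩).2
  · intro j hj
    simp only [hj, dite_true]
    have h1 : (e.symm ⟨j, hj⟩ : Fin k) ∈ K0 := (e.symm ⟨j, hj⟩).2
    simp [h1]

section
variable {V : Type u}

theorem mem_nn [Fintype V] (G : SimpleGraph V) (R : Finset V) (v w : V) :
    w ∈ MP_db9399_nc.nn G R v ↔ w ∈ R ∧ w ≠ v ∧ ¬ G.Adj v w := by
  rw [MP_db9399_nc.nn, mem_filter]

theorem mem_us [Fintype V] (F : V → Finset ℕ) (b : ℕ) (Z : Finset V) (v : V) :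
    v ∈ MP_db9399_lt.us F b \ Z ↔ b ∈ F v ∧ v ∉ Z := by
  rw [MP_db9399_lt.us, mem_sdiff, mem_filter]
  simp

theorem mem_nus [Fintype V] (F : V → Finset ℕ) (b : ℕ) (v : V) :
    v ∈ univ \ MP_db9399_lt.us F b ↔ b ∉ F v := by
  rw [MP_db9399_lt.us, mem_sdiff, mem_filter]
  simp

theorem mem_nb [Fintype V] (G : SimpleGraph V) (v w : V) : w ∈ nb G v ↔ G.Adj v w := by
  rw [nb, mem_filter]
  simp

theorem mem_odd {K : Type} (Y : Finset V) (F : V → Finset K) (K0 : Finset K) (b : K)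
    (n : ℕ) (inst : DecidablePred (fun v => b ∉ F v))
    (hn : (@Finset.filter V (fun v => b ∉ F v) inst Y).card = n) :
    b ∈ odd Y F K0 ↔ b ∈ K0 ∧ Odd n := by
  subst hn
  rw [odd, mem_filter]
  have h : ∀ (i1 i2 : DecidablePred (fun v => b ∉ F v)),
      Odd (@Finset.filter V _ i1 Y).card → Odd (@Finset.filter V _ i2 Y).card := by
    intro i1 i2 h
    rwa [Subsingleton.elim i1 i2] at h
  exact ⟨fun h' => ⟨h'.1, h _ _ h'.2⟩, fun h' => ⟨h'.1, h _ _ h'.2⟩⟩

theorem card_sub (Y : Finset V) (P : V → Prop) [DecidablePred P]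
    [DecidablePred (fun v : {v // v ∈ Y} => P v.1)] :
    ((univ : Finset {v // v ∈ Y}).filter (fun v => P v.1)).card = (Y.filter P).card := by
  rw [← Finset.card_map (Function.Embedding.subtype (fun v => v ∈ Y))]
  congr 1
  ext v
  rw [mem_map, mem_filter]
  constructor
  · rintro ⟨w, hw, rfl⟩
    rw [mem_filter] at hw
    exact ⟨w.2, hw.2⟩
  · rintro ⟨h1, h2⟩
    refine ⟨⟨v, h1⟩, ?_, rfl⟩
    rw [mem_filter]
    exact ⟨mem_univ _, h2⟩

end

theorem LTS : Stmt_LTS.{u} := by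
  intro V _ k G d x h s Y K0 F p a C Z hK0 hx hd1 hd2 hd3 hh hZ hnbY hdeg hinn hFx hFK hload hpar
    hcell hCK hCd hCc hCF
  obtain ⟨φ, ψ, hφ1, hφ2, hψ1, hψ2⟩ := relabel K0 hK0 (by omega)
  have hφinj : ∀ b ∈ K0, ∀ b' ∈ K0, φ b = φ b' → b = b' := by
    intro b hb b' hb' h
    rw [← hφ2 b hb, h, hφ2 b' hb']
  have himg : ∀ (S : Finset (Fin k)), S ⊆ K0 → ∀ b ∈ K0, (φ b ∈ S.image φ ↔ b ∈ S) := by
    intro S hS b hb
    rw [mem_image]
    constructor
    · rintro ⟨b', hb', he⟩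
      rwa [← hφinj b' (hS hb') b hb he]
    · intro h
      exact ⟨b, h, rfl⟩
  have hcard : ∀ (S : Finset (Fin k)), S ⊆ K0 → (S.image φ).card = S.card := by
    intro S hS
    exact Finset.card_image_of_injOn fun b hb b' hb' h => hφinj b (hS hb) b' (hS hb') h
  have hadj : ∀ v ∈ Y, ∀ w, G.Adj v w → w ∈ Y := fun v hv w hvw =>
    hnbY v hv (by rw [nb, mem_filter]; exact ⟨mem_univ _, hvw⟩)
  let G' : SimpleGraph {v // v ∈ Y} := G.comap (fun v => v.1)
  have hnb : ∀ v : {v // v ∈ Y}, (nb G' v).card = (nb G v.1).card := by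
    intro v
    have h1 : (nb G' v).card = (Y.filter (fun w => G.Adj v.1 w)).card :=
      card_sub Y (fun w => G.Adj v.1 w)
    rw [h1]
    congr 1
    ext w
    rw [mem_filter, nb, mem_filter]
    exact ⟨fun h => ⟨mem_univ _, h.2⟩, fun h => ⟨hadj v.1 v.2 w h.2, h.2⟩⟩
  have hH : LTZH G' d x x h s (fun v => (F v.1).image φ) (fun v => p v.1) (fun v => a v.1)
      (fun i => (C i).image φ) ((univ : Finset {v // v ∈ Y}).filter (fun v => v.1 ∈ Z)) := by
    constructor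
    · exact hx
    · omega
    · omega
    · exact hd2
    · exact hd3
    · rw [card_sub Y (fun v => v ∈ Z), Finset.filter_mem_eq_inter]
      exact hZ
    · intro v
      rw [hnb, hcard _ (hFK v.1 v.2)]
      exact hdeg v.1 v.2
    · intro v
      refine le_trans ?_ (hinn v.1 v.2)
      have h1 : (MP_db9399_nc.nn G' univ v).card ≤ (Y.filter (fun w => ¬ G.Adj v.1 w)).card := by
        rw [← card_sub Y (fun w => ¬ G.Adj v.1 w)]
        refine Finset.card_le_card fun w hw => ?_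
        rw [mem_nn] at hw
        rw [mem_filter]
        exact ⟨mem_univ _, hw.2.2⟩
      refine le_trans h1 (Finset.card_le_card fun w hw => ?_)
      rw [mem_filter] at hw
      rw [mem_sdiff, nb, mem_filter]
      exact ⟨hw.1, fun h => hw.2 h.2⟩
    · intro v
      rw [hcard _ (hFK v.1 v.2)]
      exact hFx v.1 v.2
    · intro v b hb
      rw [mem_image] at hb
      obtain ⟨b', hb', rfl⟩ := hb
      exact hφ1 b' (hFK v.1 v.2 hb')
    · intro b
      refine le_trans ?_ (hload (ψ b))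
      rw [← card_sub Y (fun v => v ∉ Z ∧ ψ b ∈ F v)]
      refine Finset.card_le_card fun v hv => ?_
      rw [mem_us, mem_image, mem_filter] at hv
      obtain ⟨⟨b', hb', he⟩, h2⟩ := hv
      rw [mem_filter]
      refine ⟨mem_univ _, fun h => h2 ⟨mem_univ _, h⟩, ?_⟩
      rw [← he, hφ2 b' (hFK v.1 v.2 hb')]
      exact hb'
    · have h1 : (MP_db9399_lt.wr (fun v : {v // v ∈ Y} => (F v.1).image φ) (range (d + 2))).card ≤
          (odd Y F K0).card := by
        rw [← hcard (odd Y F K0) (Finset.filter_subset _ _)]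
        refine Finset.card_le_card fun j hj => ?_
        rw [MP_db9399_lt.wr, mem_filter, mem_range] at hj
        rw [mem_image]
        refine ⟨ψ j, ?_, hψ2 j hj.1⟩
        refine (mem_odd Y F K0 (ψ j) _ inferInstance ?_).2 ⟨hψ1 j hj.1, hj.2⟩
        refine Eq.trans (card_sub Y (fun v => ψ j ∉ F v)).symm ?_
        refine congrArg Finset.card (Finset.ext fun v => ?_)
        rw [mem_filter, mem_nus]
        have h3 := himg (F v.1) (hFK v.1 v.2) (ψ j) (hψ1 j hj.1)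
        rw [hψ2 j hj.1] at h3
        rw [h3]
        simp
      refine le_trans h1 (le_trans hpar ?_)
      rw [Fintype.card_coe]
    · intro i l
      have h1 : (MP_db9399_lt.cell (fun v : {v // v ∈ Y} => p v.1) (fun v => a v.1) i l).card =
          (Y.filter (fun v => p v = i ∧ a v = l)).card :=
        card_sub Y (fun v => p v = i ∧ a v = l)
      rw [h1]
      exact hcell i l
    · intro i b hb
      rw [mem_image] at hb
      obtain ⟨b', hb', rfl⟩ := hb
      exact hφ1 b' (hCK i hb')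
    · intro i j hij
      rw [Finset.disjoint_left]
      intro b hb hb2
      rw [mem_image] at hb
      obtain ⟨b', hb', rfl⟩ := hb
      rw [himg _ (hCK j) b' (hCK i hb')] at hb2
      exact Finset.disjoint_left.1 (hCd i j hij) hb' hb2
    · intro i
      rw [hcard _ (hCK i)]
      exact hCc i
    · intro v hv
      rw [Finset.disjoint_left]
      intro b hb hb2
      rw [mem_image] at hb
      obtain ⟨b', hb', rfl⟩ := hb
      have h0 : v.1 ∉ Z := fun h => hv (by rw [mem_filter]; exact ⟨mem_univ _, h⟩)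
      have h1 := himg _ (hCK (p v.1)) b' (hFK v.1 v.2 hb')
      rw [h1] at hb2
      exact Finset.disjoint_left.1 (hCF v.1 v.2 h0) hb' hb2
  obtain ⟨t, ht1, ht2, ht3⟩ := MP_db9399_ot.helper94.ltz G' d x x h s _ _ _ _ _ hH
  have hG' : ∀ (v w : V) (hv : v ∈ Y) (hw : w ∈ Y), G.Adj v w → G'.Adj ⟨v, hv⟩ ⟨w, hw⟩ :=
    fun v w hv hw h => h
  have hval : ∀ (v w : V) (hv : v ∈ Y) (hw : w ∈ Y), G.Adj v w →
      ψ (t ⟨v, hv⟩ ⟨w, hw⟩) ∈ K0 ∧ φ (ψ (t ⟨v, hv⟩ ⟨w, hw⟩)) = t ⟨v, hv⟩ ⟨w, hw⟩ :=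
    fun v w hv hw h => ⟨hψ1 _ (ht2 _ _ (hG' v w hv hw h)).1, hψ2 _ (ht2 _ _ (hG' v w hv hw h)).1⟩
  refine ⟨fun v w => if hv : v ∈ Y then (if hw : w ∈ Y then ψ (t ⟨v, hv⟩ ⟨w, hw⟩) else ψ 0)
    else ψ 0, ?_, ?_, ?_⟩
  · intro v w
    by_cases hv : v ∈ Y
    · by_cases hw : w ∈ Y
      · simp only [hv, hw, dite_true]
        rw [ht1]
      · simp [hv, hw]
    · by_cases hw : w ∈ Y
      · simp [hv, hw]
      · simp [hv, hw]
  · intro v hv w hw hvw
    simp only [hv, hw, dite_true]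
    refine ⟨(hval v w hv hw hvw).1, fun hmem => ?_⟩
    refine (ht2 _ _ (hG' v w hv hw hvw)).2 ?_
    rw [mem_image]
    exact ⟨_, hmem, (hval v w hv hw hvw).2⟩
  · intro v hv w hw w' hw' he
    have hw1 : G.Adj v w := by
      rwa [Finset.mem_coe, mem_nb] at hw
    have hw1' : G.Adj v w' := by
      rwa [Finset.mem_coe, mem_nb] at hw'
    have hwY := hadj v hv w hw1
    have hwY' := hadj v hv w' hw1'
    simp only [hv, hwY, hwY', dite_true] at he
    have h1 : t ⟨v, hv⟩ ⟨w, hwY⟩ = t ⟨v, hv⟩ ⟨w', hwY'⟩ := by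
      rw [← (hval v w hv hwY hw1).2, he, (hval v w' hv hwY' hw1').2]
    have h2 := @ht3 ⟨v, hv⟩ ⟨w, hwY⟩
      (by rw [Finset.mem_coe, mem_nb]; exact hG' v w hv hwY hw1) ⟨w', hwY'⟩
      (by rw [Finset.mem_coe, mem_nb]; exact hG' v w' hv hwY' hw1') h1
    exact congrArg Subtype.val h2

end Pool.Agent.Work.MP_db9399_sl_helper49
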